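import Pool.Agent.Q165.RealMatch3

set_option autoImplicit false

/-!
# MP_cd59f5_co: the realizability preorder on the perfect matchings of `K_n` is antisymmetric

The vertices `1, …, n` are the elements `0, …, n - 1` of `Fin n`.  A perfect matching is a graph in
which every vertex has exactly one neighbour.  `CanRealize d M`: some graph with degree sequence `d`
contains the edges of `M`.  `R M` is the set of the nonincreasing sequences of positive integers
that can realize `M`.
-/

namespace Pool.Agent.Results.MP_cd59f5_co.Antisymmetric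

/-- Every vertex has exactly one neighbour. -/
def IsPerfectMatching {n : ℕ} (M : SimpleGraph (Fin n)) : Prop := ∀ v, ∃! w, M.Adj v w

/-- Some graph in which every vertex `i` has degree `d i` contains all edges of `M`. -/
def CanRealize {n : ℕ} (d : Fin n → ℕ) (M : SimpleGraph (Fin n)) : Prop :=
  ∃ G : SimpleGraph (Fin n), (∀ i, (G.neighborSet i).ncard = d i) ∧ M ≤ G

/-- The sequences `d_1 ≥ d_2 ≥ … ≥ d_n ≥ 1` that can realize `M`. -/
def R {n : ℕ} (M : SimpleGraph (Fin n)) : Set (Fin n → ℕ) :=
  {d | Antitone d ∧ (∀ i, 1 ≤ d i) ∧ CanRealize d M}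

/-- Two perfect matchings that are realized by the same sequences are equal: the preorder
`N ≼ M ↔ R M ⊆ R N` is antisymmetric, for every `n`. -/
theorem result (n : ℕ) (M N : SimpleGraph (Fin n)) (hM : IsPerfectMatching M)
    (hN : IsPerfectMatching N) (h1 : R M ⊆ R N) (h2 : R N ⊆ R M) : M = N := by
  choose f hf hf' using hM
  choose g hg hg' using hN
  have adjM : ∀ v w, M.Adj v w ↔ w = f v := fun v w => ⟨fun h => hf' v w h, fun h => h ▸ hf v⟩
  have adjN : ∀ v w, N.Adj v w ↔ w = g v := fun v w => ⟨fun h => hg' v w h, fun h => h ▸ hg v⟩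
  have ff : ∀ i, f (f i) = i := fun i => ((adjM (f i) i).1 (hf i).symm).symm
  have gg : ∀ i, g (g i) = i := fun i => ((adjN (g i) i).1 (hg i).symm).symm
  have fne : ∀ i, f i ≠ i := fun i e => (hf i).ne e.symm
  have gne : ∀ i, g i ≠ i := fun i e => (hg i).ne e.symm
  have cM : ∀ d, CanRealize d M ↔ Q165.RM.Realizes d f := by
    intro d
    constructor
    · rintro ⟨G, h, h'⟩
      exact ⟨G, h, fun i => h' (hf i)⟩
    · rintro ⟨G, h, h'⟩
      refine ⟨G, h, ?_⟩
      intro v w hvw
      rw [(adjM v w).1 hvw]
      exact h' v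
  have cN : ∀ d, CanRealize d N ↔ Q165.RM.Realizes d g := by
    intro d
    constructor
    · rintro ⟨G, h, h'⟩
      exact ⟨G, h, fun i => h' (hg i)⟩
    · rintro ⟨G, h, h'⟩
      refine ⟨G, h, ?_⟩
      intro v w hvw
      rw [(adjN v w).1 hvw]
      exact h' v
  have hfg : f = g := by
    apply Q165.RM.eq_of_realizes f g ff fne gg gne
    intro d hd hd'
    rw [← cM, ← cN]
    constructor
    · intro h
      exact (h1 ⟨hd, hd', h⟩).2.2
    · intro h
      exact (h2 ⟨hd, hd', h⟩).2.2
  ext v w
  rw [adjM, adjN, hfg]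

end Pool.Agent.Results.MP_cd59f5_co.Antisymmetric
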